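import Pool.Agent.N928.FG.Stm

/-!
# Project FG, part SYM (helper657): symmetry of the walk on the free product
-/

set_option autoImplicit false

namespace Pool.Agent.N657.FG

open Pool.Agent.N928.FG Pool.Agent.Helper125 Pool.Agent.Helper125.Gam

noncomputable section

/-- the transition operator as a finite sum -/
theorem P_eq (β : ℝ) (h : Ga → ℝ) (x : Ga) :
    P β h x = ∑ y ∈ (nu β).support, nu β y * h (y⁻¹ * x) := rfl

/-- scalar product -/
def ip (f g : Ga → ℝ) : ℝ := ∑' x, f x * g x

theorem fin_shift {f : Ga → ℝ} (hf : (Function.support f).Finite) (y : Ga) :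
    (Function.support fun x => f (y * x)).Finite :=
  hf.preimage (f := fun x => y * x) (fun _ _ _ _ h => mul_left_cancel h)

theorem fin_mul {f g : Ga → ℝ} (hf : (Function.support f).Finite) :
    (Function.support fun x => f x * g x).Finite :=
  hf.subset fun _ hx => left_ne_zero_of_mul hx

theorem fin_P {β : ℝ} {f : Ga → ℝ} (hf : (Function.support f).Finite) :
    (Function.support (P β f)).Finite := by
  refine (Set.Finite.biUnion (nu β).support.finite_toSet
    (fun y _ => fin_shift hf y⁻¹)).subset fun x hx => ?_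
  by_contra hcon
  refine hx ?_
  rw [P_eq]
  refine Finset.sum_eq_zero fun y hy => ?_
  have : f (y⁻¹ * x) = 0 := by
    by_contra h
    exact hcon (Set.mem_biUnion (by exact hy) h)
  rw [this, mul_zero]

theorem adj {β : ℝ} (hs : ∀ x, nu β x⁻¹ = nu β x) {f : Ga → ℝ} (hf : (Function.support f).Finite)
    (g : Ga → ℝ) : ip f (P β g) = ip (P β f) g := by
  have e1 : ip f (P β g) = ∑ y ∈ (nu β).support, nu β y * ∑' x, f x * g (y⁻¹ * x) := by
    unfold ip
    have : ∀ x, f x * P β g x = ∑ y ∈ (nu β).support, nu β y * (f x * g (y⁻¹ * x)) := by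
      intro x
      rw [P_eq, Finset.mul_sum]
      refine Finset.sum_congr rfl fun y _ => ?_
      ring
    simp_rw [this]
    rw [Summable.tsum_finsetSum]
    · refine Finset.sum_congr rfl fun y _ => ?_
      exact tsum_mul_left
    · intro y _
      exact (summable_of_hasFiniteSupport (fin_mul hf)).mul_left _
  have e2 : ip (P β f) g = ∑ y ∈ (nu β).support, nu β y * ∑' x, f (y⁻¹ * x) * g x := by
    unfold ip
    have : ∀ x, P β f x * g x = ∑ y ∈ (nu β).support, nu β y * (f (y⁻¹ * x) * g x) := by
      intro x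
      rw [P_eq, Finset.sum_mul]
      refine Finset.sum_congr rfl fun y _ => ?_
      ring
    simp_rw [this]
    rw [Summable.tsum_finsetSum]
    · refine Finset.sum_congr rfl fun y _ => ?_
      exact tsum_mul_left
    · intro y _
      exact (summable_of_hasFiniteSupport (fin_mul (fin_shift hf y⁻¹))).mul_left _
  rw [e1, e2]
  have e3 : ∀ y : Ga, ∑' x, f x * g (y⁻¹ * x) = ∑' x, f (y * x) * g x := by
    intro y
    rw [← (Equiv.mulLeft y).tsum_eq (fun x => f x * g (y⁻¹ * x))]
    refine tsum_congr fun x => ?_
    rw [Equiv.coe_mulLeft, inv_mul_cancel_left]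
  simp_rw [e3]
  refine Finset.sum_nbij' (fun y => y⁻¹) (fun y => y⁻¹) ?_ ?_ ?_ ?_ ?_
  · intro y hy
    rw [Finsupp.mem_support_iff] at hy ⊢
    rwa [hs]
  · intro y hy
    rw [Finsupp.mem_support_iff] at hy ⊢
    rwa [hs]
  · intro y _
    exact inv_inv y
  · intro y _
    exact inv_inv y
  · intro y _
    rw [hs, inv_inv]

theorem t_SYM : S_NU → S_SYM := by
  intro hNU β hβ hβ'
  obtain ⟨h0, -, hs, -⟩ := hNU β hβ hβ'
  set q : ℕ → Ga → ℝ := fun n => (P β)^[n] δ with hq
  have hsucc : ∀ n, q (n + 1) = P β (q n) := fun n => Function.iterate_succ_apply' _ _ _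
  have hfin : ∀ n, (Function.support (q n)).Finite := by
    intro n
    induction n with
    | zero =>
      refine (Set.finite_singleton (1 : Ga)).subset fun x hx => ?_
      by_contra h
      have h1 : δ x = 0 := Set.indicator_of_notMem h _
      exact hx h1
    | succ n ih => rw [hsucc]; exact fin_P ih
  have hnn : ∀ n x, 0 ≤ q n x := by
    intro n
    induction n with
    | zero =>
      intro x
      exact Set.indicator_nonneg (fun _ _ => zero_le_one) x
    | succ n ih =>
      intro x
      rw [hsucc, P_eq]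
      exact Finset.sum_nonneg fun y _ => mul_nonneg (h0 y) (ih _)
  have hmove : ∀ m n, ip (q m) (q n) = ip (q 0) (q (m + n)) := by
    intro m
    induction m with
    | zero => intro n; rw [zero_add]
    | succ m ih =>
      intro n
      rw [hsucc m, ← adj hs (hfin m), ← hsucc n, ih (n + 1)]
      congr 2
      omega
  have hp : ∀ m n, ip (q m) (q n) = p β (m + n) := by
    intro m n
    rw [hmove]
    unfold ip
    rw [tsum_eq_single (1 : Ga)]
    · show δ 1 * q (m + n) 1 = _
      have : δ 1 = 1 := Set.indicator_of_mem (Set.mem_singleton 1) _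
      rw [this, one_mul]
      rfl
    · intro x hx
      show δ x * q (m + n) x = 0
      have : δ x = 0 := Set.indicator_of_notMem (by simpa using hx) _
      rw [this, zero_mul]
  refine ⟨fun n => hnn n 1, fun n => ?_⟩
  classical
  set S : Finset Ga := (hfin n).toFinset ∪ (hfin (n + 1)).toFinset with hS
  have hsum : ∀ a b, a ∈ ({n, n + 1} : Set ℕ) → ip (q a) (q b) = ∑ x ∈ S, q a x * q b x := by
    intro a b ha
    unfold ip
    refine tsum_eq_sum fun x hx => ?_
    rw [hS, Finset.mem_union, not_or, Set.Finite.mem_toFinset, Set.Finite.mem_toFinset,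
      Function.notMem_support, Function.notMem_support] at hx
    have : q a x = 0 := by
      rcases ha with rfl | ha
      · exact hx.1
      · rw [Set.mem_singleton_iff.1 ha]
        exact hx.2
    rw [this, zero_mul]
  have e1 : p β (2 * n + 1) = ∑ x ∈ S, q n x * q (n + 1) x := by
    rw [← hsum n (n + 1) (by simp), hp]
    congr 1
    omega
  have e2 : p β (2 * n) = ∑ x ∈ S, q n x ^ 2 := by
    have h1 : ip (q n) (q n) = ∑ x ∈ S, q n x ^ 2 := by
      rw [hsum n n (by simp)]
      exact Finset.sum_congr rfl fun x _ => (sq _).symm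
    rw [← h1, hp]
    congr 1
    omega
  have e3 : p β (2 * n + 2) = ∑ x ∈ S, q (n + 1) x ^ 2 := by
    have h1 : ip (q (n + 1)) (q (n + 1)) = ∑ x ∈ S, q (n + 1) x ^ 2 := by
      rw [hsum (n + 1) (n + 1) (by simp)]
      exact Finset.sum_congr rfl fun x _ => (sq _).symm
    rw [← h1, hp]
    congr 1
    omega
  rw [e1, e2, e3]
  exact Finset.sum_mul_sq_le_sq_mul_sq _ _ _

end

end Pool.Agent.N657.FG
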